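import Mathlib
import Pool.Graph.R_pool_sql_team_seeded_3997aac3.Q24.TFC.Main

/-!
# One amenable group for all second countable profinite groups
-/

set_option autoImplicit false

namespace Pool.Agent.Results.MP_ccbc6b_al.UniversalGroup

open Q24.ProfCompl Q24.TFC

universe u

/-- The profinite completion of a discrete group `G`: the closure of the image of `G` in the
product of its finite quotients (`Q24.ProfCompl.Grp` for the family of all normal subgroups of
finite index). -/
def Completion (G : Type) [Group G] : Type := Hat G

instance (G : Type) [Group G] : Group (Completion G) := inferInstanceAs (Group (Hat G))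

instance (G : Type) [Group G] : TopologicalSpace (Completion G) :=
  inferInstanceAs (TopologicalSpace (Hat G))

/-- The canonical homomorphism to the profinite completion. -/
def toCompletion (G : Type) [Group G] : G →* Completion G := toHat G

/-- A discrete group is torsion-free. -/
def TorsionFree (G : Type) [Group G] : Prop := ∀ (g : G) (n : ℕ), 0 < n → g ^ n = 1 → g = 1

/-- A discrete group is amenable if it has a left invariant finitely additive probability measure
defined on all subsets. -/
def Amenable (G : Type) [Group G] : Prop :=
  ∃ μ : Set G → ℝ, (∀ A, 0 ≤ μ A) ∧ μ Set.univ = 1 ∧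
    (∀ A B : Set G, Disjoint A B → μ (A ∪ B) = μ A + μ B) ∧
    ∀ (g : G) (A : Set G), μ ((fun x => g * x) '' A) = μ A

/-- The rational core of a subgroup `D` of the profinite completion of `G`: the intersection of
the subgroups `k D k⁻¹`, `k ∈ G`. -/
def core {G : Type} [Group G] (D : Subgroup (Completion G)) : Set (Completion G) :=
  {x | ∀ k : G, (toCompletion G k)⁻¹ * x * toCompletion G k ∈ D}

/-- `H` is topologically isomorphic to a closed subgroup with trivial rational core of the
profinite completion of `G`, contained in the subgroup `D₀`. -/
def OccursIn (G : Type) [Group G] (D₀ : Subgroup (Completion G)) (H : Type u) [Group H]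
    [TopologicalSpace H] : Prop :=
  ∃ D : Subgroup (Completion G), D ≤ D₀ ∧ IsClosed (D : Set (Completion G)) ∧
    Nonempty (D ≃ₜ* H) ∧ core D = {1}

/-- The alternating group of degree `m` with the discrete topology. -/
def AltT (m : ℕ) : Type := alternatingGroup (Fin m)

instance (m : ℕ) : Group (AltT m) := inferInstanceAs (Group (alternatingGroup (Fin m)))
instance (m : ℕ) : Finite (AltT m) := inferInstanceAs (Finite (alternatingGroup (Fin m)))
instance (m : ℕ) : TopologicalSpace (AltT m) := ⊥
instance (m : ℕ) : DiscreteTopology (AltT m) := ⟨rfl⟩

/-- The product of all finite alternating groups, each taken infinitely often. -/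
abbrev HU : Type := ∀ p : ℕ × ℕ, AltT p.2

theorem hu_profinite : IsProfinite HU where
  topGroup := inferInstance
  compact := inferInstance
  t2 := inferInstance
  td := inferInstance

/-- a homomorphism of finite groups with changed degree -/
noncomputable def castHom {H : Type u} [Group H] {a b : ℕ} (h : a = b)
    (f : H →* alternatingGroup (Fin a)) : H →* AltT b := h ▸ (f : H →* AltT a)

theorem castHom_ker {H : Type u} [Group H] {a b : ℕ} (h : a = b)
    (f : H →* alternatingGroup (Fin a)) : (castHom h f).ker = f.ker := by
  subst h; rfl

theorem embed (H : Type u) [Group H] [TopologicalSpace H] (hH : IsProfinite H)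
    (hsc : SecondCountableTopology H) :
    ∃ φ : H →* HU, Continuous φ ∧ Function.Injective φ := by
  classical
  have := hH.topGroup
  obtain ⟨k, -, jj, hj1, hj2⟩ := exists_embedding H hH hsc
  let c : ∀ p : ℕ × ℕ, H →* AltT p.2 := fun p =>
    if h : k p.1 = p.2 then castHom h (jj p.1) else 1
  refine ⟨MonoidHom.pi c, continuous_pi fun p => ?_, ?_⟩
  · show Continuous (c p)
    have hker : ∃ M : Subgroup H, IsOpen (M : Set H) ∧ M ≤ (c p).ker := by
      by_cases h : k p.1 = p.2
      · obtain ⟨M, hM, hMk⟩ := hj1 p.1
        refine ⟨M, hM, ?_⟩
        have : c p = castHom h (jj p.1) := dif_pos h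
        rw [this, castHom_ker]
        exact hMk
      · refine ⟨⊤, isOpen_univ, ?_⟩
        have : c p = 1 := dif_neg h
        rw [this]; intro x _; rfl
    obtain ⟨M, hM, hMk⟩ := hker
    refine continuous_of_continuousAt_one (c p) ?_
    have h1 : (c p) ⁻¹' {1} ∈ nhds (1 : H) :=
      Filter.mem_of_superset (hM.mem_nhds M.one_mem) (fun x hx => hMk hx)
    rw [ContinuousAt, map_one, nhds_discrete (AltT p.2), Filter.tendsto_pure]
    exact h1
  · rw [injective_iff_map_eq_one]
    intro h hh
    refine hj2 h fun n => ?_
    have h1 : c (n, k n) h = 1 := congrFun hh (n, k n)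
    have h2 : c (n, k n) = castHom rfl (jj n) := dif_pos rfl
    rw [h2] at h1
    exact h1

/-- There are one finitely generated, torsion-free, amenable group `G` and one closed subgroup `D₀`
of its profinite completion with trivial rational core such that a profinite group `H` is
topologically isomorphic to a closed subgroup of `D₀` (necessarily with trivial rational core) if
and only if `H` is second countable; and every profinite group occurring in Q1 for any finitely
generated group is second countable. -/
theorem result :
    (∃ (G : Type) (_ : Group G) (D₀ : Subgroup (Completion G)),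
      Group.FG G ∧ TorsionFree G ∧ Amenable G ∧ IsClosed (D₀ : Set (Completion G)) ∧
      core D₀ = {1} ∧
      ∀ (H : Type u) [Group H] [TopologicalSpace H], IsProfinite H →
        (OccursIn G D₀ H ↔ SecondCountableTopology H)) ∧
    (∀ (G : Type) [Group G] (H : Type u) [Group H] [TopologicalSpace H], Group.FG G →
      OccursIn G ⊤ H → SecondCountableTopology H) := by
  have second : ∀ (G : Type) [Group G] (D₀ : Subgroup (Completion G)) (H : Type u) [Group H]
      [TopologicalSpace H], Group.FG G → OccursIn G D₀ H → SecondCountableTopology H := by
    rintro G _ D₀ H _ _ hfg ⟨D, -, hD, ⟨e⟩, hcore⟩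
    have : SecondCountableTopology (Completion G) := sc_hat G hfg
    have : SecondCountableTopology D := Topology.IsEmbedding.subtypeVal.secondCountableTopology
    exact e.toHomeomorph.symm.secondCountableTopology
  refine ⟨?_, fun G _ H _ _ hfg h => second G ⊤ H hfg h⟩
  have hHU : SecondCountableTopology HU := inferInstance
  obtain ⟨G, _, D₀, hfg, hgood, hD, ⟨e⟩, hcore⟩ := (main HU hu_profinite).2 hHU
  have one_core : ∀ D : Subgroup (Completion G), (1 : Completion G) ∈ core D := fun D k => by
    rw [mul_one, inv_mul_cancel]; exact D.one_mem
  have hcore0 : core (G := G) D₀ = {1} := by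
    ext x
    exact ⟨fun hx => hcore x hx, by rintro rfl; exact one_core D₀⟩
  refine ⟨G, inferInstance, D₀, hfg, hgood.1, HJI.Fol.mean_of_fol hgood.2, hD, hcore0, ?_⟩
  intro H _ _ hH
  refine ⟨fun h => second G D₀ H hfg h, fun hsc => ?_⟩
  obtain ⟨φ, hφc, hφi⟩ := embed H hH hsc
  have := hH.compact
  have hT2 : T2Space (Completion G) := inferInstanceAs (T2Space (Hat G))
  let θ : H →* Completion G := D₀.subtype.comp ((e.symm : HU →* D₀).comp φ)
  have hθc : Continuous θ :=
    continuous_subtype_val.comp ((map_continuous e.symm).comp hφc)
  have hθi : Function.Injective θ :=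
    Subtype.val_injective.comp (e.symm.injective.comp hφi)
  have hle : θ.range ≤ D₀ := by
    rintro _ ⟨h, rfl⟩
    exact Subtype.coe_prop _
  let E : H ≃* θ.range := MonoidHom.ofInjective hθi
  have hEc : Continuous E := hθc.subtype_mk _
  refine ⟨θ.range, hle, ?_, ⟨?_⟩, ?_⟩
  · have : (θ.range : Set (Completion G)) = Set.range θ := MonoidHom.coe_range θ
    rw [this]
    exact (isCompact_range hθc).isClosed
  · exact { E.symm with
      continuous_toFun := (hEc.homeoOfEquivCompactToT2 (f := E.toEquiv)).symm.continuous
      continuous_invFun := hEc }
  · ext x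
    constructor
    · intro hx
      rw [← hcore0]
      exact fun k => hle (hx k)
    · rintro rfl
      exact one_core _

end Pool.Agent.Results.MP_ccbc6b_al.UniversalGroup
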